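import Pool.Agent.helper32.EX.SpecD

/-!
# Row ex:HPQ (MP_561ff4_al): the order of a diagonal element divides `q - 1`
-/

set_option autoImplicit false

namespace Pool.Agent.EX

theorem HPQ_pow {n : ℕ} {C : Matrix (Fin n) (Fin n) ℤ} {F : Type} [Field F] (h : LV C F ≃ₗ[F] LV C F) (v : LV C F)
    (c : F) (hv : h v = c • v) (k : ℕ) : (h ^ k) v = c ^ k • v := by
  induction k with
  | zero => simp
  | succ k ih => rw [pow_succ', LinearEquiv.mul_apply, ih, map_smul, hv, smul_smul, pow_succ]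

theorem HPQ_mem {n : ℕ} (C : Matrix (Fin n) (Fin n) ℤ) (F : Type) [Field F] (h : LV C F ≃ₗ[F] LV C F)
    (hh : h ∈ EG C F) (k : ℕ) : h ^ k ∈ EG C F := Subgroup.pow_mem _ hh k

theorem HPQ (hHID : HID_stmt) (hMMU : MMU_stmt) : HPQ_stmt := by
  intro n C hC F _ _ h hh
  obtain ⟨h1, h2⟩ := hh
  refine hHID C F _ (HPQ_mem C F h h1 _) fun α => ?_
  obtain ⟨c, hc, hv⟩ := h2 α
  have hv' : h (ev C α (1 : F)) = c • ev C α 1 := by
    rw [hv, smul_ev, mul_one]
    rfl
  rw [HPQ_pow h _ c hv']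
  have h3 : c ^ (Nat.card F - 1) = 1 := by
    have := Fintype.ofFinite F
    rw [Nat.card_eq_fintype_card]
    exact FiniteField.pow_card_sub_one_eq_one c hc
  rw [h3, one_smul]

end Pool.Agent.EX
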