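import Pool.Agent.helper32.EX.SpecA

/-!
# Row ex:LIN (MP_561ff4_al): commuting root elements
-/

set_option autoImplicit false

namespace Pool.Agent.EX

theorem LIN_aux {n : ℕ} (C : Matrix (Fin n) (Fin n) ℤ) [Fact (Dyn C)] (F : Type) [Field F] (a b v x y : LV C F)
    (s t p q : F) :
    v + (s • x + t • y) + (s * p + t * q) • (s • a + t • b) =
      (v + t • y + (t * q) • t • b) + s • (x + t • (p • b + q • a)) + (s * p) • s • a := by
  ext i
  · simp only [Prod.fst_add, Prod.smul_fst, Pi.add_apply, Pi.smul_apply, smul_eq_mul]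
    ring
  · simp only [Prod.snd_add, Prod.smul_snd, Pi.add_apply, Pi.smul_apply, smul_eq_mul]
    ring

theorem LIN (hCOL : COL_stmt) (hXEF : XEF_stmt) (hINV : INV_stmt) (hANT : ANT_stmt) : LIN_stmt := by
  intro n C hC F _ α β h s t v
  have hab : br (ev C α (1 : F)) (ev C β 1) = 0 := br_ev_zero (by rw [h]; norm_num) 1 1
  have hfab : fo (ev C α (1 : F)) (ev C β 1) = 0 := by
    rw [fo_ev, ev_snd]
    have h1 : ¬ -α = β := by
      intro h1
      have h2 := Q_neg_self α
      rw [h1, h] at h2
      omega
    rw [if_neg h1, mul_zero]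
  have hf : fo (ev C α (1 : F)) (br (ev C β 1) v) = 0 := by
    rw [← hINV C F, hab, fo_zero_left]
  have hcol := hCOL C F α β h v
  rw [xl_apply, xl_apply, ← hXEF C F, ← hXEF C F, ev_eq α s, ev_eq β t]
  generalize ev C α (1 : F) = a at hab hfab hf hcol ⊢
  generalize ev C β (1 : F) = b at hab hfab hf hcol ⊢
  have e1 : ex (t • b) v = v + t • br b v + (t * fo b v) • t • b := by
    simp only [ex, br_smul_left, fo_smul_left]
  have e2 : br (s • a) (ex (t • b) v) = s • (br a v + t • (fo a v • b + fo b v • a)) := by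
    rw [e1, br_smul_left, br_add_right, br_add_right, br_smul_right, br_smul_right, br_smul_right, hab, smul_zero,
      smul_zero, add_zero, hcol]
  have e3 : fo (s • a) (ex (t • b) v) = s * fo a v := by
    rw [e1, fo_smul_left, fo_add_right, fo_add_right, fo_smul_right, fo_smul_right, fo_smul_right, hfab, hf]
    ring
  have e4 : ex (s • a) (ex (t • b) v) = ex (t • b) v + br (s • a) (ex (t • b) v) + fo (s • a) (ex (t • b) v) • s • a := rfl
  rw [e4, e2, e3, e1]
  have e5 : ex (s • a + t • b) v = v + (s • br a v + t • br b v) + (s * fo a v + t * fo b v) • (s • a + t • b) := by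
    simp only [ex, br_add_left, br_smul_left, fo_add_left, fo_smul_left]
  rw [e5]
  exact LIN_aux C F a b v (br a v) (br b v) s t (fo a v) (fo b v)

end Pool.Agent.EX
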